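import Mathlib
import Pool.Agent.Helper85.GroupRoth

set_option autoImplicit false

/-!
# Symmetric sets outside the sigma-algebra generated by the additive subgroups

If `lam` is an infinite cardinal with `cf (2 ^ lam) ≤ 2 ^ ℵ₀ < 2 ^ lam` then some symmetric set of
at most `cf (2 ^ lam)` reals does not belong to the sigma-algebra generated by the additive
subgroups of the reals.  So if Q1 has a positive answer then `2 ^ lam = 2 ^ ℵ₀` or
`2 ^ ℵ₀ < cf (2 ^ lam)` for every infinite cardinal `lam` (`necessary`, below).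
-/

namespace Pool.Agent.Results.MP_fbee13_lc.CofinalityObstruction

open Pool.Agent.Helper85.GroupSigma

theorem result (lam : Cardinal.{0}) (h0 : Cardinal.aleph0 ≤ lam)
    (h1 : Cardinal.continuum < 2 ^ lam)
    (h2 : (2 ^ lam : Cardinal.{0}).ord.cof ≤ Cardinal.continuum) :
    ∃ Z : Set ℝ, Cardinal.mk Z ≤ (2 ^ lam : Cardinal.{0}).ord.cof ∧ (∀ z ∈ Z, -z ∈ Z) ∧
      ¬ @MeasurableSet ℝ
        (MeasurableSpace.generateFrom {S : Set ℝ | ∃ G : AddSubgroup ℝ, (G : Set ℝ) = S}) Z :=
  exists_not_mem lam h0 h1 h2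

/-- A necessary condition for a positive answer to Q1. -/
theorem necessary
    (H : ∀ Z : Set ℝ, (∀ z ∈ Z, -z ∈ Z) →
      @MeasurableSet ℝ
        (MeasurableSpace.generateFrom {S : Set ℝ | ∃ G : AddSubgroup ℝ, (G : Set ℝ) = S}) Z)
    (lam : Cardinal.{0}) (h0 : Cardinal.aleph0 ≤ lam) :
    (2 ^ lam : Cardinal.{0}) = Cardinal.continuum ∨
      Cardinal.continuum < (2 ^ lam : Cardinal.{0}).ord.cof := by
  by_contra hcon
  rw [not_or, not_lt] at hcon
  have h1 : Cardinal.continuum ≤ 2 ^ lam := by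
    rw [← Cardinal.two_power_aleph0]
    exact Cardinal.power_le_power_left (by norm_num) h0
  obtain ⟨Z, _, hZ, hZ'⟩ := result lam h0 (lt_of_le_of_ne h1 (Ne.symm hcon.1)) hcon.2
  exact hZ' (H Z hZ)

end Pool.Agent.Results.MP_fbee13_lc.CofinalityObstruction
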