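import Mathlib
import Pool.Agent.Helper85.GroupSep

set_option autoImplicit false

/-!
# Which sets belong to the sigma-algebra generated by the additive subgroups of the reals

Exact description (in ZFC) of the sigma-algebra on `ℝ` generated by the additive subgroups: a set
`Z` belongs to it if and only if `Z` is symmetric and, for every `k`, the set of all `k`-tuples of
reals whose sum lies in `Z` belongs to the sigma-algebra generated by the abstract boxes
`A 1 × ... × A k` with arbitrary sides.

Since the sum preimage of a Borel set is Borel and Borel sets of `ℝ ^ k` are generated by boxes, it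
follows in particular that every symmetric Borel set belongs to the sigma-algebra generated by the
subgroups (`Pool.Agent.Helper85.GroupSigma.borel_mem`, restated below as `symmetric_borel`).
-/

namespace Pool.Agent.Results.MP_fbee13_lc.MembershipCriterion

open Pool.Agent.Helper85.GroupSigma

theorem result (Z : Set ℝ) :
    @MeasurableSet ℝ
      (MeasurableSpace.generateFrom {S : Set ℝ | ∃ G : AddSubgroup ℝ, (G : Set ℝ) = S}) Z ↔
    (∀ z ∈ Z, -z ∈ Z) ∧
      ∀ k : ℕ, @MeasurableSet (Fin k → ℝ)
        (MeasurableSpace.generateFrom
          {B : Set (Fin k → ℝ) | ∃ A : Fin k → Set ℝ, B = {f | ∀ i, f i ∈ A i}})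
        {f : Fin k → ℝ | ∑ i, f i ∈ Z} := by
  have h := mem_iff Z
  constructor
  · intro hZ
    refine ⟨(h.1 hZ).1, fun k => ?_⟩
    rw [box_eq]
    exact (h.1 hZ).2 k
  · rintro ⟨h1, h2⟩
    refine h.2 ⟨h1, fun k => ?_⟩
    rw [← box_eq]
    exact h2 k

/-- Corollary: every symmetric Borel set of reals belongs to the sigma-algebra generated by the
additive subgroups. -/
theorem symmetric_borel (Z : Set ℝ) (hZ : ∀ z ∈ Z, -z ∈ Z) (hB : MeasurableSet Z) :
    @MeasurableSet ℝ
      (MeasurableSpace.generateFrom {S : Set ℝ | ∃ G : AddSubgroup ℝ, (G : Set ℝ) = S}) Z :=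
  borel_mem Z hZ hB

end Pool.Agent.Results.MP_fbee13_lc.MembershipCriterion
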