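import Mathlib
import Pool.Agent.Helper85.GroupPse

set_option autoImplicit false

/-!
# Symmetric sets of cardinality at most the pseudointersection number

An unconditional positive answer to Q1 for all symmetric sets of reals of cardinality at most the
pseudointersection number `𝔭`: each of them belongs to the sigma-algebra generated by the additive
subgroups of the reals.  No regularity of the set is assumed.  Since `ℵ₁ ≤ 𝔭`
(`aleph_one_le`, below) this covers all symmetric sets of cardinality at most `ℵ₁`; if `𝔭 = 2 ^ ℵ₀`,
in particular under the continuum hypothesis and under Martin's axiom, it covers every symmetric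
set.
-/

namespace Pool.Agent.Results.MP_fbee13_lc.PseudointersectionSets

open Set Cardinal

/-- All intersections of finitely many members of `A` are infinite. -/
def StrongFIP (A : Set (Set ℕ)) : Prop :=
  ∀ F : Set (Set ℕ), F ⊆ A → F.Finite → (⋂₀ F).Infinite

/-- Some infinite set is almost contained in every member of `A`. -/
def HasPseudo (A : Set (Set ℕ)) : Prop :=
  ∃ P : Set ℕ, P.Infinite ∧ ∀ S ∈ A, (P \ S).Finite

/-- The pseudointersection number `𝔭`: the least cardinality of a family of sets of natural
numbers that has the strong finite intersection property and no infinite pseudointersection. -/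
noncomputable def pNumber : Cardinal.{0} :=
  sInf {k | ∃ A : Set (Set ℕ), #A = k ∧ StrongFIP A ∧ ¬ HasPseudo A}

theorem result (Z : Set ℝ) (hcard : Cardinal.mk Z ≤ pNumber) (hsymm : ∀ z ∈ Z, -z ∈ Z) :
    @MeasurableSet ℝ
      (MeasurableSpace.generateFrom {S : Set ℝ | ∃ G : AddSubgroup ℝ, (G : Set ℝ) = S}) Z :=
  Pool.Agent.Helper85.GroupSigma.symm_pNumber Z hcard hsymm

/-- The classical inequality `ℵ₁ ≤ 𝔭`. -/
theorem aleph_one_le : Cardinal.aleph 1 ≤ pNumber :=
  Pool.Agent.Helper85.GroupSigma.aleph_one_le_pNumber

end Pool.Agent.Results.MP_fbee13_lc.PseudointersectionSets
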