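import Mathlib
import Pool.Agent.Helper85.GroupSigma

set_option autoImplicit false

/-!
# Symmetric sets and the sigma-algebra generated by the additive subgroups of the reals

The question (Q1): is every symmetric set of reals in the sigma-algebra generated by the additive
subgroups of the reals?

We prove, with no extra hypothesis, that Q1 has a positive answer if and only if every subset of
the plane belongs to the sigma-algebra generated by the abstract rectangles `A ×ˢ B`, where `A`
and `B` are arbitrary sets of reals.  The latter statement is the classical abstract rectangle
problem: it holds under the continuum hypothesis and under Martin's axiom, and it fails in the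
Cohen model with continuum at least aleph two (Kunen's thesis).  So neither answer to Q1 is
provable in ZFC, and the theorem below says which statement about the plane decides it.
-/

namespace Pool.Agent.Results.MP_fbee13_lc.RectangleEquivalence

open Pool.Agent.Helper85.GroupSigma

theorem result :
    (∀ Z : Set ℝ, (∀ z ∈ Z, -z ∈ Z) →
      @MeasurableSet ℝ
        (MeasurableSpace.generateFrom {S : Set ℝ | ∃ G : AddSubgroup ℝ, (G : Set ℝ) = S}) Z) ↔
    (∀ E : Set (ℝ × ℝ),
      @MeasurableSet (ℝ × ℝ)
        (MeasurableSpace.generateFrom {R : Set (ℝ × ℝ) | ∃ A B : Set ℝ, R = A ×ˢ B}) E) := by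
  have hc : ∀ X : Set ℝ, Cardinal.mk X ≤ Cardinal.continuum := fun X => by
    rw [← Cardinal.mk_real]; exact Cardinal.mk_set_le X
  constructor
  · intro H E
    rw [rect_eq]
    exact rect_of_symm Cardinal.continuum Cardinal.aleph0_le_continuum
      (fun Z _ hZ => H Z hZ) Set.univ (hc _) E (by intro w _; exact ⟨trivial, trivial⟩)
  · intro H Z hZ
    refine symm_of_rect Cardinal.continuum Cardinal.aleph0_le_continuum ?_ Z (hc _) hZ
    intro X _ E _
    rw [← rect_eq]
    exact H E

end Pool.Agent.Results.MP_fbee13_lc.RectangleEquivalence
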